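import Pool.Agent.T2h63.PL.Hexa

/-!
Self-avoiding walks on the honeycomb lattice: the exponents of the number of walks and of all the
moments of the end-to-end distance, jointly: their limit points, and exact power laws along
subsequences.
-/

set_option autoImplicit false

namespace Pool.Agent.Results.MP_b440f6_pr.JointExponents

open Filter Topology

/-- Adjacency in the honeycomb lattice (brick-wall model), as in the frozen statement. -/
def Nbr (p q : ℤ × ℤ) : Prop :=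
  (p.2 = q.2 ∧ (p.1 - q.1 = 1 ∨ q.1 - p.1 = 1)) ∨
    (p.1 = q.1 ∧ ((q.2 = p.2 + 1 ∧ Even (p.1 + p.2)) ∨ (p.2 = q.2 + 1 ∧ Even (q.1 + q.2))))

/-- The set of `n`-step self-avoiding walks from the origin. -/
def walks (n : ℕ) : Set (Fin (n + 1) → ℤ × ℤ) :=
  {ω | ω 0 = (0, 0) ∧ Function.Injective ω ∧ ∀ i : Fin n, Nbr (ω i.castSucc) (ω i.succ)}

/-- The number of `n`-step self-avoiding walks from the origin. -/
noncomputable def c (n : ℕ) : ℕ := (walks n).ncard

/-- The connective constant. -/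
noncomputable def μ : ℝ := √(2 + √2)

/-- The vertex of the regular honeycomb lattice with edge length `1` in the plane, the origin at `0`,
which has the brick-wall coordinates `p`. -/
noncomputable def pos (p : ℤ × ℤ) : ℂ :=
  ⟨√3 / 2 * p.1, (3 * p.2 - ((p.1 + p.2) % 2 : ℤ)) / 2⟩

/-- The moment `⟨|ω(n)|^s⟩` of order `s` of the end-to-end distance of the uniform `n`-step
self-avoiding walk; `s = 2` gives the mean-square displacement `D n`. -/
noncomputable def moment (s : ℝ) (n : ℕ) : ℝ :=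
  (∑ᶠ ω ∈ walks n, ‖pos (ω (Fin.last n))‖ ^ s) / (c n : ℝ)

/-- `log (c n / μ^n) / log n`; Q1 says that this tends to `11/32`. -/
noncomputable def gam (n : ℕ) : ℝ := Real.log ((c n : ℝ) / μ ^ n) / Real.log n

/-- `log ⟨|ω(n)|^s⟩ / log n`; Q2 says that this tends to `3/2` for `s = 2`. -/
noncomputable def tau (s : ℝ) (n : ℕ) : ℝ := Real.log (moment s n) / Real.log n

/-- The vector of the exponents at length `n`. -/
noncomputable def expo {k : ℕ} (s : Fin k → ℝ) (n : ℕ) : ℝ × (Fin k → ℝ) :=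
  (gam n, fun i => tau (s i) n)

/-- The monomial `(c n / μ^n)^a ∏ᵢ ⟨|ω(n)|^(s i)⟩^(b i)`. -/
noncomputable def mon {k : ℕ} (s : Fin k → ℝ) (a : ℝ) (b : Fin k → ℝ) (n : ℕ) : ℝ :=
  ((c n : ℝ) / μ ^ n) ^ a * ∏ i, moment (s i) n ^ b i

/-- Infinitely many `n` of the parity `q` satisfy `|u n / n^θ - B| ≤ K B log n / √n`. -/
def PowerLaw (u : ℕ → ℝ) (K θ B : ℝ) (q : ℕ) : Prop :=
  ∃ᶠ n : ℕ in atTop, n % 2 = q ∧
    |u n / (n : ℝ) ^ θ - B| ≤ K * B * (Real.log n / Real.sqrt n)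

/-- The limit points of a sequence. -/
def limitPoints {X : Type} [TopologicalSpace X] (x : ℕ → X) : Set X := {y | MapClusterPt y atTop x}

open Pool.Agent.T2h63.PL

theorem gam_eq (n : ℕ) : gam n = lc n / Real.log n := rfl

theorem tau_eq (s : ℝ) (n : ℕ) : tau s n = lm s n / Real.log n := rfl

theorem c_pos (n : ℕ) : (0 : ℝ) < c n := by
  have h := card_pos' n
  rw [← Pool.Agent.Results.MP_b440f6_pr.AllOrders.c_eq] at h
  exact h

theorem mon_eq {k : ℕ} (s : Fin k → ℝ) (a : ℝ) (b : Fin k → ℝ) {n : ℕ} (hn : 2 ≤ n) :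
    mon s a b n = Real.exp (a * lc n + ∑ i, b i * lm (s i) n) := by
  have hμ : (0 : ℝ) < μ := by unfold μ; positivity
  have h1 : (0 : ℝ) < (c n : ℝ) / μ ^ n := div_pos (c_pos n) (pow_pos hμ n)
  have h2 : ((c n : ℝ) / μ ^ n) ^ a = Real.exp (a * lc n) := by
    rw [Real.rpow_def_of_pos h1, mul_comm]
    rfl
  have h3 : ∀ i, moment (s i) n ^ b i = Real.exp (b i * lm (s i) n) := by
    intro i
    have h4 : 0 < moment (s i) n := moment_pos (s i) hn
    rw [Real.rpow_def_of_pos h4, mul_comm]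
    rfl
  unfold mon
  rw [h2, Finset.prod_congr rfl (fun i _ => h3 i), ← Real.exp_sum, ← Real.exp_add]

theorem ratio {k : ℕ} (s : Fin k → ℝ) (a : ℝ) (b : Fin k → ℝ) (n : ℕ) :
    (a * lc n + ∑ i, b i * lm (s i) n) / Real.log n = a * gam n + ∑ i, b i * tau (s i) n := by
  rw [add_div, Finset.sum_div, gam_eq, mul_div_assoc]
  congr 1
  refine Finset.sum_congr rfl fun i _ => ?_
  rw [tau_eq, mul_div_assoc]

/-- the constants -/
theorem slow_all {k : ℕ} (s : Fin k → ℝ) : ∃ K : ℝ, 0 < K ∧ ∀ (a : ℝ) (b : Fin k → ℝ), ∃ K' M : ℝ,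
    SlowLog (fun n => a * lc n + ∑ i, b i * lm (s i) n) K' M ∧
      ∀ θ : ℝ, 4 * K' + 4 * |θ| ≤ K * (|a| + ∑ i, |b i| + |θ|) := by
  obtain ⟨K0, M0, h0⟩ := slow_lc
  choose Ki Mi hi using fun i => slow_lm (s i)
  have hKi : ∀ i, 0 ≤ Ki i := fun i => (hi i).hK
  have hS : 0 ≤ ∑ i, Ki i := Finset.sum_nonneg fun i _ => hKi i
  have hK0 := h0.hK
  refine ⟨4 * (K0 + ∑ i, Ki i) + 4, by positivity, fun a b => ?_⟩
  refine ⟨_, _, (h0.smul a).add (SlowLog.sum (fun i => (hi i).smul (b i)) Finset.univ),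
    fun θ => ?_⟩
  have h1 : ∑ i, |b i| * Ki i ≤ (∑ i, |b i|) * ∑ i, Ki i := by
    rw [Finset.sum_mul]
    refine Finset.sum_le_sum fun i _ => mul_le_mul_of_nonneg_left ?_ (abs_nonneg _)
    exact Finset.single_le_sum (fun j _ => hKi j) (Finset.mem_univ i)
  have h2 : 0 ≤ ∑ i, |b i| := Finset.sum_nonneg fun i _ => abs_nonneg _
  have h3 := abs_nonneg a
  have h4 := abs_nonneg θ
  have h5 : 0 ≤ (∑ i, |b i|) * K0 := mul_nonneg h2 hK0
  have h6 : 0 ≤ |a| * ∑ i, Ki i := mul_nonneg h3 hS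
  have h7 : 0 ≤ |θ| * (K0 + ∑ i, Ki i) := mul_nonneg h4 (by linarith)
  nlinarith

theorem law {k : ℕ} {s : Fin k → ℝ} {a : ℝ} {b : Fin k → ℝ} {K K' θ B : ℝ} {q : ℕ}
    (hB : 0 < B) (hK : 4 * K' + 4 * |θ| ≤ K)
    (h : ∃ᶠ n : ℕ in atTop, n % 2 = q ∧
      |Real.exp (a * lc n + ∑ i, b i * lm (s i) n) / (n : ℝ) ^ θ - B| ≤
        (4 * K' + 4 * |θ|) * B * Pool.Agent.R956.D2.f n) : PowerLaw (mon s a b) K θ B q := by
  refine (h.and_eventually (eventually_ge_atTop 2)).mono ?_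
  rintro n ⟨⟨h1, h2⟩, hn⟩
  refine ⟨h1, ?_⟩
  rw [mon_eq s a b hn]
  refine h2.trans ?_
  have h3 := Pool.Agent.R956.D2.f_nonneg n
  show (4 * K' + 4 * |θ|) * B * Pool.Agent.R956.D2.f n ≤ K * B * Pool.Agent.R956.D2.f n
  exact mul_le_mul_of_nonneg_right (mul_le_mul_of_nonneg_right hK hB.le) h3

theorem steps_gam : Tendsto (fun n : ℕ => gam (n + 1) - gam n) atTop (𝓝 0) := by
  obtain ⟨K0, M0, h0⟩ := slow_lc
  exact h0.steps

theorem steps_tau (s : ℝ) : Tendsto (fun n : ℕ => tau s (n + 1) - tau s n) atTop (𝓝 0) := by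
  obtain ⟨K0, M0, h0⟩ := slow_lm s
  exact h0.steps

theorem to_dist {X : Type} [NormedAddCommGroup X] {x : ℕ → X}
    (h : Tendsto (fun n => x (n + 1) - x n) atTop (𝓝 0)) :
    Tendsto (fun n => dist (x (n + 1)) (x n)) atTop (𝓝 0) := by
  have := h.norm
  rw [norm_zero] at this
  refine this.congr fun n => ?_
  rw [dist_eq_norm]

theorem steps_expo {k : ℕ} (s : Fin k → ℝ) :
    Tendsto (fun n => dist (expo s (n + 1)) (expo s n)) atTop (𝓝 0) := by
  refine to_dist (x := expo s) ?_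
  have h1 : Tendsto (fun n : ℕ => (fun i => tau (s i) (n + 1) - tau (s i) n : Fin k → ℝ)) atTop
      (𝓝 0) := by
    rw [tendsto_pi_nhds]
    exact fun i => steps_tau (s i)
  exact steps_gam.prodMk_nhds h1

theorem tau_bd (s : ℝ) {n : ℕ} (hn : 2 ≤ n) : |tau s n| ≤ 4 * |s| := by
  have h1 := lm_bd s n hn
  have h2 : 0 < Real.log n := Real.log_pos (by exact_mod_cast (by omega : 1 < n))
  rw [tau_eq, abs_div, abs_of_pos h2, div_le_iff₀ h2]
  linarith

/-- **Theorem.** For the `n`-step self-avoiding walks on the honeycomb lattice let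
`gam n = log (c n / μ^n) / log n` and `tau s n = log ⟨|ω(n)|^s⟩ / log n`, for real `s`.
For all real `s 1, …, s k` there is `K` such that:
(1) for all real `a`, `b i`, `θ`: if for some `ε > 0` infinitely many `n` have
`a gam n + ∑ b i tau (s i) n ≤ θ - ε` and infinitely many `≥ θ + ε`, then for EVERY `B > 0` and each
parity infinitely many `n` of this parity satisfy
`(c n / μ^n)^a ∏ ⟨|ω(n)|^(s i)⟩^(b i) = B n^θ (1 + O(log n / √n))`, the constant being
`K (|a| + ∑ |b i| + |θ|)`;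
(2) for all `b i`, either `∑ b i tau (s i) n` converges, or there is an interval of exponents `θ` for
which the conclusion of (1) holds with `a = 0`;
(3) the vector of exponents `(gam n, tau (s 1) n, …, tau (s k) n)` converges to `x` if and only if `x`
is a limit point of it near which there are only countably many limit points; in particular,
Q1 and Q2 both hold (`gam n → 11/32` and `tau 2 n → 3/2`) if and only if `(11/32, 3/2)` is a limit
point of `(gam n, tau 2 n)` near which there are only countably many limit points. -/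
theorem result :
    (∀ (k : ℕ) (s : Fin k → ℝ),
      (∃ K : ℝ, 0 < K ∧
        (∀ (a : ℝ) (b : Fin k → ℝ) (θ ε : ℝ), 0 < ε →
          (∃ᶠ n in atTop, a * gam n + ∑ i, b i * tau (s i) n ≤ θ - ε) →
          (∃ᶠ n in atTop, θ + ε ≤ a * gam n + ∑ i, b i * tau (s i) n) →
          ∀ B : ℝ, 0 < B → ∀ q : ℕ, q ≤ 1 →
            PowerLaw (mon s a b) (K * (|a| + ∑ i, |b i| + |θ|)) θ B q) ∧
        ∀ b : Fin k → ℝ,
          (∃ γ, Tendsto (fun n => ∑ i, b i * tau (s i) n) atTop (𝓝 γ)) ∨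
          ∃ x y : ℝ, x < y ∧ ∀ θ ∈ Set.Ioo x y, ∀ B : ℝ, 0 < B → ∀ q : ℕ, q ≤ 1 →
            PowerLaw (mon s 0 b) (K * (∑ i, |b i| + |θ|)) θ B q) ∧
      ∀ x : ℝ × (Fin k → ℝ), Tendsto (expo s) atTop (𝓝 x) ↔ x ∈ limitPoints (expo s) ∧
        ∃ δ : ℝ, 0 < δ ∧ (limitPoints (expo s) ∩ Metric.ball x δ).Countable) ∧
    (Tendsto gam atTop (𝓝 (11 / 32)) ∧ Tendsto (tau 2) atTop (𝓝 (3 / 2)) ↔
      ((11 / 32, 3 / 2) : ℝ × ℝ) ∈ limitPoints (fun n => (gam n, tau 2 n)) ∧
        ∃ δ : ℝ, 0 < δ ∧ (limitPoints (fun n => (gam n, tau 2 n)) ∩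
          Metric.ball ((11 / 32, 3 / 2) : ℝ × ℝ) δ).Countable) := by
  refine ⟨fun k s => ⟨?_, fun x => ?_⟩, ?_⟩
  · obtain ⟨K, hK, hall⟩ := slow_all s
    refine ⟨K, hK, ?_, ?_⟩
    · intro a b θ ε hε h1 h2 B hB q hq
      obtain ⟨K', M, hs, hc⟩ := hall a b
      refine law hB (hc θ) (hs.power hε ?_ ?_ hB hq)
      · exact h1.mono fun n hn => by rw [ratio]; exact hn
      · exact h2.mono fun n hn => by rw [ratio]; exact hn
    · intro b
      obtain ⟨K', M, hs, hc⟩ := hall 0 b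
      have hr : ∀ n, (0 * lc n + ∑ i, b i * lm (s i) n) / Real.log n =
          ∑ i, b i * tau (s i) n := by
        intro n
        rw [ratio, zero_mul, zero_add]
      have hbd : ∀ᶠ n : ℕ in atTop,
          |(0 * lc n + ∑ i, b i * lm (s i) n) / Real.log n| ≤ ∑ i, |b i| * (4 * |s i|) := by
        filter_upwards [eventually_ge_atTop 2] with n hn
        rw [hr]
        refine (Finset.abs_sum_le_sum_abs _ _).trans (Finset.sum_le_sum fun i _ => ?_)
        rw [abs_mul]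
        exact mul_le_mul_of_nonneg_left (tau_bd (s i) hn) (abs_nonneg _)
      rcases hs.dich hbd with ⟨γ, h⟩ | ⟨x, y, hxy, h⟩
      · exact Or.inl ⟨γ, h.congr hr⟩
      · refine Or.inr ⟨x, y, hxy, fun θ hθ B hB q hq => law hB ?_ (h θ hθ B hB q hq)⟩
        have := hc θ
        rwa [abs_zero, zero_add] at this
  · exact isolated_iff (steps_expo s) x
  · have hst : Tendsto (fun n => dist ((fun n : ℕ => (gam n, tau 2 n)) (n + 1))
        ((fun n : ℕ => (gam n, tau 2 n)) n)) atTop (𝓝 0) :=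
      to_dist (x := fun n : ℕ => (gam n, tau 2 n)) (steps_gam.prodMk_nhds (steps_tau 2))
    have hiso := isolated_iff (x := fun n : ℕ => (gam n, tau 2 n)) hst ((11 / 32, 3 / 2) : ℝ × ℝ)
    refine Iff.trans ?_ hiso
    constructor
    · rintro ⟨h1, h2⟩
      exact h1.prodMk_nhds h2
    · intro h
      exact ⟨(continuous_fst.tendsto _).comp h, (continuous_snd.tendsto _).comp h⟩

end Pool.Agent.Results.MP_b440f6_pr.JointExponents
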